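import Mathlib
import Pool.Agent.MP_e633d5_co.Mg.Main

/-! For every `k ≥ 1`, a sequence is realisable as a `k`-cyclic graph if and only if it is positive
and dominates the degree sequence of a reduced `k`-cyclic graph on at most `4 k - 1` vertices with
the same cyclomatic number. -/

namespace Pool.Agent.Results.MP_e633d5_co.FiniteBasis

open Pool.Agent.MP_e633d5_co

theorem result (k p : ℕ) (hk : 1 ≤ k) (d : Fin p → ℕ) (hd : Antitone d) :
    (∃ G : SimpleGraph (Fin p), KCyclic G k ∧ ∀ i, dg G i = d i) ↔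
    (∀ i, 1 ≤ d i) ∧ ∃ (q : ℕ) (hq : q ≤ p), q + 1 ≤ 4 * k ∧ ∃ H : SimpleGraph (Fin q), Core H k ∧
      (∀ i, dg H i ≤ d (Fin.castLE hq i)) ∧ ∑ i, d i + 2 * q = ∑ i, dg H i + 2 * p :=
  main hk d hd

end Pool.Agent.Results.MP_e633d5_co.FiniteBasis
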