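import Pool.Agent.MP_e633d5_co.H49.Main

/-! The largest number of cycles compatible with a degree sum `2 * (p - 1 + m)` is asymptotically
`2 ^ (m - 1)` (conjecture of Entringer and Slater). -/

namespace Pool.Agent.Results.MP_e633d5_co.MaxCycles

open Pool.Agent.MP_e633d5_co

theorem result : ∃ ψ : ℕ → ℕ,
    (∀ m : ℕ, IsGreatest {k : ℕ | ∃ (p : ℕ) (d : Fin p → ℕ), ∑ i, d i + 2 = 2 * p + 2 * m ∧
      ∃ G : SimpleGraph (Fin p), KCyclic G k ∧ ∀ i, dg G i = d i} (ψ m)) ∧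
    Filter.Tendsto (fun m : ℕ => (ψ m : ℝ) / 2 ^ m) Filter.atTop (nhds (1 / 2)) :=
  H49.es

end Pool.Agent.Results.MP_e633d5_co.MaxCycles
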