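import Pool.Agent.MP_e633d5_co.Mg.H84_Mem

/-! Deciding whether a sequence is realizable as a `k`-cyclic graph is NP-complete. -/

theorem Pool.Agent.Results.MP_e633d5_co.NPComplete.result :
    N793a5b8e.IsCompleteFor N68a2faeb.NP Pool.Agent.MP_e633d5_co.H84.KCYC :=
  Pool.Agent.MP_e633d5_co.H84.kcyc_complete
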