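import Mathlib
import Pool.Agent.MP_e633d5_co.Mg.H74_Nec

/-! A closed form for sequences with at least `2 m - 2` entries at least three, `m` being the
cyclomatic number, for every `k ≤ 3 m / 2 + 2 ^ (m / 5)`. -/

namespace Pool.Agent.Results.MP_e633d5_co.ThreeRich

open Pool.Agent.MP_e633d5_co

theorem result (k p m : ℕ) (d : Fin p → ℕ) (hm : 13 ≤ m) (hs : ∑ i, d i + 2 = 2 * p + 2 * m)
    (h3 : 2 * m ≤ (Finset.univ.filter fun i => 3 ≤ d i).card + 2)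
    (hk : (k : ℝ) ≤ 3 * m / 2 + 2 ^ ((m : ℝ) / 5)) :
    (∃ G : SimpleGraph (Fin p), KCyclic G k ∧ ∀ i, dg G i = d i) ↔
      (∀ i, 1 ≤ d i) ∧ m ≤ k ∧ 3 * m + 1 ≤ k + (Finset.univ.filter fun i => 2 ≤ d i).card ∧
        5 * m ≤ 2 * k + ∑ i, d i / 2 ∧
        (3 * m < 2 * k → 5 * m + 3 ≤ 2 * k + ∑ i, d i / 2) ∧
        (3 * m + 6 ≤ 2 * k → 5 * m + 6 ≤ 2 * k + ∑ i, d i / 2) ∧
        ((∀ i, d i ≤ 4) → 13 * m = 2 * k + 5 * ∑ i, d i / 2 ∨
          13 * m + 3 ≤ 2 * k + 5 * ∑ i, d i / 2) := by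
  have hs' : ∑ i, d i + 2 = 2 * Fintype.card (Fin p) + 2 * m := by rwa [Fintype.card_fin]
  constructor
  · rintro ⟨G, hG, h⟩
    obtain rfl : dg G = d := funext h
    obtain ⟨a1, a2, a3, a4⟩ := nec hG (by omega) hs'
    obtain ⟨F⟩ := exists_fund hG.connected
    have h1 := card_nt_eq F hs'
    have h2 : cyc G = k := hG.card_eq
    have h4 := H74.fact1 (F := F)
    have h5 := fun h => H74.fact2 (F := F) hG.connected h (by omega)
    rw [h1, h2] at h4 h5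
    exact ⟨a1, a2, a3, a4, by omega, by omega, h5⟩
  · rintro ⟨a1, a2, a3, a4, a5, a6, a7⟩
    refine H74.suff hm ?_ a1 hs' h3 a2 a3 a4 a5 a6 a7
    by_cases h : 2 * k ≤ 3 * m
    · simp [Nat.sub_eq_zero_of_le h]
    have h1 : ((2 * k - 3 * m : ℕ) : ℝ) ≤ 2 * 2 ^ ((m : ℝ) / 5) := by
      rw [Nat.cast_sub (by omega)]
      push_cast
      linarith
    have h2 := pow_le_pow_left₀ (Nat.cast_nonneg _) h1 5
    rw [mul_pow, ← Real.rpow_natCast (2 ^ ((m : ℝ) / 5)), ← Real.rpow_mul (by norm_num),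
      show (m : ℝ) / 5 * ((5 : ℕ) : ℝ) = m by push_cast; ring, Real.rpow_natCast, ← pow_add,
      add_comm] at h2
    exact_mod_cast h2

end Pool.Agent.Results.MP_e633d5_co.ThreeRich
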